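import Pool.Agent.Q264.PairGadget
set_option autoImplicit false
set_option linter.unusedSectionVars false
open Finset

/-! Full degree vectors of `p`-sets in oriented hypergraphs: the equality fails for
`r = 4`, `p = 2` (MP_721462_co, negated form of Q1). -/

namespace Pool.Agent.Results.MP_721462_co.Disproof

open Pool.Agent.Q264.PairGadget

section defs
variable {V : Type} [Fintype V] [DecidableEq V]

/-- `D` is an orientation of the `r`-uniform hypergraph `H`: for every edge `E` the map `D E`
restricts to a bijection from `E` onto the `r` positions. -/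
def IsOrientation (r : ℕ) (H : Finset (Finset V)) (D : Finset V → V → Fin r) : Prop :=
  ∀ E ∈ H, Set.BijOn (D E) (E : Set V) Set.univ

/-- `d_P(A)`: the number of edges `E ⊇ A` in which the elements of `A` occupy exactly the
positions in `P`. -/
def degP {r : ℕ} (H : Finset (Finset V)) (D : Finset V → V → Fin r) (A : Finset V)
    (P : Finset (Fin r)) : ℕ :=
  #(H.filter (fun E => A ⊆ E ∧ A.image (D E) = P))

/-- `f(D,p,k)`: the number of `p`-sets `A` with `d_P(A) ≥ k` for all `p`-sets `P` of positions. -/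
def fD {r : ℕ} (H : Finset (Finset V)) (D : Finset V → V → Fin r) (p k : ℕ) : ℕ :=
  #(((univ : Finset V).powersetCard p).filter
    (fun A => ∀ P ∈ (univ : Finset (Fin r)).powersetCard p, k ≤ degP H D A P))

/-- `f(H,p,k)`: the minimum of `f(D,p,k)` over all orientations `D` of `H`. -/
noncomputable def fH (r : ℕ) (H : Finset (Finset V)) (p k : ℕ) : ℕ :=
  sInf {m | ∃ D : Finset V → V → Fin r, IsOrientation r H D ∧ fD H D p k = m}

/-- `b(H,p)`: the largest size of a family `B` of `p`-sets that has a colouring with at most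
`C(r,p)` colours such that no edge all of whose `p`-subsets lie in `B` is `p`-monochromatic. -/
noncomputable def bH (r : ℕ) (H : Finset (Finset V)) (p : ℕ) : ℕ :=
  sSup {m | ∃ B ⊆ (univ : Finset V).powersetCard p, (∃ χ : Finset V → Fin (r.choose p),
    ∀ E ∈ H, E.powersetCard p ⊆ B → ¬ ∃ x, ∀ A ∈ E.powersetCard p, χ A = x) ∧ #B = m}

end defs

/-- the base vertex set -/
abbrev W : Type := Fin 9

/-- the base colouring of pairs by four variables -/
def c0 (A : Finset W) : Fin 4 :=
  if A ∈ ({{0, 5}, {7, 8}, {0, 8}, {5, 7}, {0, 4}, {1, 8}, {1, 4}, {2, 5}, {2, 4}} :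
    Finset (Finset W)) then 1
  else if A ∈ ({{2, 3}, {6, 8}, {0, 1}, {4, 8}} : Finset (Finset W)) then 2
  else if A ∈ ({{0, 2}, {6, 7}, {4, 5}, {1, 3}, {0, 3}, {1, 2}} : Finset (Finset W)) then 3
  else 0

/-- the base edges -/
def HF : Finset (Finset W) :=
  {{0, 5, 7, 8}, {2, 3, 6, 8}, {0, 1, 4, 8}, {0, 2, 6, 7}, {0, 2, 4, 5}, {0, 1, 2, 3}}

set_option maxRecDepth 100000 in
lemma HF_card : ∀ E ∈ HF, #E = 4 := by decide

set_option maxRecDepth 100000 in
lemma HF_pattern : ∀ i j : Fin 4, i ≠ j → ∃ E ∈ HF, ∀ A ∈ E.powersetCard 2,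
    (c0 A = i ∨ c0 A = j) ∧ c0 (E \ A) = c0 A := by decide

set_option maxRecDepth 100000 in
lemma HF_nonmono : ∀ E ∈ HF, ∃ A ∈ E.powersetCard 2, ∃ B ∈ E.powersetCard 2, c0 A ≠ c0 B := by
  decide

/-- representatives of the four variables -/
def rep : Fin 4 → Finset W := ![{0, 7}, {0, 5}, {0, 1}, {0, 2}]

lemma rep_spec : ∀ i, #(rep i) = 2 ∧ c0 (rep i) = i := by decide

/-- the colours: 2-sets of positions -/
abbrev K : Type := {P : Finset (Fin 4) // #P = 2}

lemma card_K : Fintype.card K = 6 := by decide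

lemma pigeon (y : Fin 4 → K) : ∃ i j, i ≠ j ∧ ((y i).1 = (y j).1 ∨ (y i).1 = ((y j).1)ᶜ) := by
  classical
  let g : Fin 4 → Finset (Fin 4) := fun i => if (0 : Fin 4) ∈ (y i).1 then (y i).1 else ((y i).1)ᶜ
  have ht : #(((univ : Finset (Fin 4)).powersetCard 2).filter (fun P => (0 : Fin 4) ∈ P)) = 3 := by
    decide
  obtain ⟨i, _, j, _, hij, h⟩ := exists_ne_map_eq_of_card_lt_of_maps_to
    (s := (univ : Finset (Fin 4)))
    (t := ((univ : Finset (Fin 4)).powersetCard 2).filter (fun P => (0 : Fin 4) ∈ P)) (f := g)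
    (by rw [ht]; simp) (by
      intro i _
      simp only [coe_filter, Set.mem_ofPred_eq, mem_powersetCard, g]
      split_ifs with h0
      · exact ⟨⟨subset_univ _, (y i).2⟩, h0⟩
      · refine ⟨⟨subset_univ _, ?_⟩, ?_⟩
        · rw [card_compl, (y i).2]; simp
        · rw [mem_compl]; exact h0)
  refine ⟨i, j, hij, ?_⟩
  simp only [g] at h
  split_ifs at h with h1 h2 h2
  · exact Or.inl h
  · exact Or.inr h
  · right
    rw [← h, compl_compl]
  · left
    exact compl_injective h

/-- the list of forced equalities -/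
noncomputable def eqs : List (Finset W × Finset W) :=
  (((univ : Finset (Finset W)) ×ˢ (univ : Finset (Finset W))).filter
    (fun p => #p.1 = 2 ∧ #p.2 = 2 ∧ c0 p.1 = c0 p.2)).toList

lemma mem_eqs (p : Finset W × Finset W) : p ∈ eqs ↔ #p.1 = 2 ∧ #p.2 = 2 ∧ c0 p.1 = c0 p.2 := by
  unfold eqs
  rw [mem_toList, mem_filter]
  simp

theorem exists_hyper : ∃ (V : Type) (_ : Fintype V) (_ : DecidableEq V) (H : Finset (Finset V)),
    (∀ E ∈ H, #E = 4) ∧ (∃ c : Finset V → K, MF H c) ∧
    (∀ D : Finset V → V → Fin 4, IsOrientation 4 H D → ∃ A : Finset V, #A = 2 ∧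
      ∀ P : Finset (Fin 4), #P = 2 → 1 ≤ degP H D A P) := by
  classical
  have hneK : Nonempty K := ⟨⟨{0, 1}, by decide⟩⟩
  obtain ⟨V, i1, i2, ι, H, hu, hs, ha, hb⟩ := forces_list (κ := K) HF HF_card eqs
    (fun p hp => ⟨((mem_eqs p).1 hp).1, ((mem_eqs p).1 hp).2.1⟩)
  refine ⟨V, i1, i2, H, hu, ?_, ?_⟩
  · -- a colouring without monochromatic edges
    have hcardle : Fintype.card (Fin 4) ≤ Fintype.card K := by rw [card_K]; simp
    obtain ⟨emb⟩ : Nonempty (Fin 4 ↪ K) := Function.Embedding.nonempty_of_card_le hcardle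
    obtain ⟨c', hc', _⟩ := hb (fun A => emb (c0 A)) (by
      intro E hE hmono
      obtain ⟨x, hx⟩ := hmono
      obtain ⟨A, hA, B, hB, hAB⟩ := HF_nonmono E hE
      rw [mem_powersetCard] at hA hB
      have h1 := hx A hA.1 hA.2
      have h2 := hx B hB.1 hB.2
      exact hAB (emb.injective (h1.trans h2.symm))) (by
      intro p hp
      rw [mem_eqs] at hp
      change emb _ = emb _
      rw [hp.2.2])
    exact ⟨c', hc'⟩
  · intro D hD
    by_contra hcon
    push Not at hcon
    -- choose the missing position sets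
    have hch : ∀ A : Finset V, ∃ P : K, #A = 2 → degP H D A P.1 = 0 := by
      intro A
      by_cases hA : #A = 2
      · obtain ⟨P, hP2, hP⟩ := hcon A hA
        exact ⟨⟨P, hP2⟩, fun _ => Nat.lt_one_iff.1 hP⟩
      · exact ⟨Classical.arbitrary K, fun h => absurd h hA⟩
    choose c hc using hch
    -- no edge has a pair in the position given by its colour
    have hno : ∀ E ∈ H, ∀ A, A ⊆ E → #A = 2 → A.image (D E) ≠ (c A).1 := by
      intro E hE A hAE hA2 himg
      have h0 := hc A hA2
      unfold degP at h0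
      rw [card_eq_zero, filter_eq_empty_iff] at h0
      exact h0 hE ⟨hAE, himg⟩
    -- preimages
    have hpre : ∀ E ∈ H, ∀ P : Finset (Fin 4), #P = 2 →
        (E.filter (fun v => D E v ∈ P)).image (D E) = P ∧ #(E.filter (fun v => D E v ∈ P)) = 2 := by
      intro E hE P hP2
      have hbij := hD E hE
      have himg : (E.filter (fun v => D E v ∈ P)).image (D E) = P := by
        ext x
        rw [mem_image]
        constructor
        · rintro ⟨v, hv, rfl⟩
          exact (mem_filter.1 hv).2
        · intro hx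
          obtain ⟨v, hv, rfl⟩ := hbij.surjOn (Set.mem_univ x)
          exact ⟨v, mem_filter.2 ⟨hv, hx⟩, rfl⟩
      refine ⟨himg, ?_⟩
      rw [← hP2, ← himg, card_image_of_injOn, himg]
      intro a ha b hb hab
      rw [mem_coe, mem_filter] at ha hb
      exact hbij.injOn ha.1 hb.1 hab
    have hMF : MF H c := by
      rintro E hE ⟨P, hP⟩
      obtain ⟨h1, h2⟩ := hpre E hE P.1 P.2
      apply hno E hE _ (filter_subset _ _) h2
      rw [hP _ (filter_subset _ _) h2]
      exact h1
    have hQ := ha c hMF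
    -- colours of the variables
    set y : Fin 4 → K := fun i => c ((rep i).map ι) with hy
    have hcy : ∀ A : Finset W, #A = 2 → c (A.map ι) = y (c0 A) := by
      intro A hA
      exact hQ (A, rep (c0 A)) ((mem_eqs _).2 ⟨hA, (rep_spec _).1, (rep_spec _).2.symm⟩)
    obtain ⟨i, j, hij, hyij⟩ := pigeon y
    obtain ⟨E, hE, hpat⟩ := HF_pattern i j hij
    have hE' := hs E hE
    obtain ⟨h1, h2⟩ := hpre (E.map ι) hE' (y i).1 (y i).2
    obtain ⟨A, hA, hAeq⟩ := subset_map_iff.1 (filter_subset (fun v => D (E.map ι) v ∈ (y i).1) (E.map ι))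
    rw [hAeq] at h1 h2
    rw [card_map] at h2
    have hpatA := hpat A (mem_powersetCard.2 ⟨hA, h2⟩)
    have hAc : A.map ι ⊆ E.map ι := map_subset_map.2 hA
    -- the colour of `A` is `y i` or its complement
    have hcA : (c (A.map ι)).1 = (y i).1 ∨ (c (A.map ι)).1 = ((y i).1)ᶜ := by
      rw [hcy A h2]
      rcases hpatA.1 with h | h
      · left; rw [h]
      · rw [h]
        rcases hyij with h' | h'
        · left; exact h'.symm
        · right; rw [h', compl_compl]
    rcases hcA with h | h
    · exact hno _ hE' _ hAc (by rw [card_map]; exact h2) (by rw [h1, h])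
    · -- the complementary pair
      have hcard : #(E \ A) = 2 := by
        rw [card_sdiff_of_subset hA, HF_card E hE, h2]
      have hc2 : c ((E \ A).map ι) = c (A.map ι) := by
        rw [hcy _ hcard, hcy A h2, hpatA.2]
      apply hno _ hE' ((E \ A).map ι) (map_subset_map.2 sdiff_subset) (by rw [card_map]; exact hcard)
      rw [hc2, h]
      have hbij := hD _ hE'
      ext x
      rw [mem_image, mem_compl]
      constructor
      · rintro ⟨v, hv, rfl⟩ hx
        rw [mem_map] at hv
        obtain ⟨w, hw, rfl⟩ := hv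
        rw [mem_sdiff] at hw
        have : ι w ∈ A.map ι := by
          rw [← hAeq, mem_filter]
          exact ⟨mem_map_of_mem _ hw.1, hx⟩
        rw [mem_map' ι] at this
        exact hw.2 this
      · intro hx
        obtain ⟨v, hv, rfl⟩ := hbij.surjOn (Set.mem_univ x)
        refine ⟨v, ?_, rfl⟩
        rw [mem_coe, mem_map] at hv
        obtain ⟨w, hw, rfl⟩ := hv
        rw [mem_map' ι, mem_sdiff]
        refine ⟨hw, fun hwA => hx ?_⟩
        have : ι w ∈ A.map ι := mem_map_of_mem _ hwA
        rw [← hAeq, mem_filter] at this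
        exact this.2

/-- There is a 4-uniform hypergraph `H` on a finite set of `n` vertices with
`f(H,2,1) > C(n,2) - b(H,2)`; more precisely `b(H,2) = C(n,2)` but `f(H,2,1) ≥ 1`. -/
theorem result : ∃ (V : Type) (_ : Fintype V) (_ : DecidableEq V) (H : Finset (Finset V)),
    (∀ E ∈ H, #E = 4) ∧ bH 4 H 2 = (Fintype.card V).choose 2 ∧ 1 ≤ fH 4 H 2 1 := by
  classical
  obtain ⟨V, i1, i2, H, hu, ⟨c, hc⟩, hD⟩ := exists_hyper
  refine ⟨V, i1, i2, H, hu, ?_, ?_⟩
  · unfold bH
    apply le_antisymm
    · apply csSup_le'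
      rintro m ⟨B, hB, _, rfl⟩
      have := card_le_card hB
      rwa [card_powersetCard, card_univ] at this
    · apply le_csSup
      · refine ⟨(Fintype.card V).choose 2, ?_⟩
        rintro m ⟨B, hB, _, rfl⟩
        have := card_le_card hB
        rwa [card_powersetCard, card_univ] at this
      · have e : K ≃ Fin (Nat.choose 4 2) := Fintype.equivFinOfCardEq (by rw [card_K]; rfl)
        refine ⟨(univ : Finset V).powersetCard 2, Subset.rfl, ⟨fun A => e (c A), ?_⟩, ?_⟩
        · rintro E hE _ ⟨x, hx⟩
          apply hc E hE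
          refine ⟨e.symm x, fun A hA hA2 => ?_⟩
          rw [← hx A (mem_powersetCard.2 ⟨hA, hA2⟩)]
          simp
        · rw [card_powersetCard, card_univ]
  · unfold fH
    -- an orientation exists
    have hne : ∃ D : Finset V → V → Fin 4, IsOrientation 4 H D := by
      have : ∀ E : Finset V, ∃ g : V → Fin 4, E ∈ H → Set.BijOn g (E : Set V) Set.univ := by
        intro E
        by_cases hE : E ∈ H
        · have h4 := hu E hE
          have e : {x // x ∈ E} ≃ Fin 4 := Fintype.equivFinOfCardEq (by rw [Fintype.card_coe, h4])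
          refine ⟨fun v => if h : v ∈ E then e ⟨v, h⟩ else 0, fun _ => ⟨fun _ _ => Set.mem_univ _, ?_, ?_⟩⟩
          · intro a ha b hb hab
            rw [mem_coe] at ha hb
            simp only [dif_pos ha, dif_pos hb] at hab
            exact congrArg Subtype.val (e.injective hab)
          · intro x _
            refine ⟨(e.symm x).1, (e.symm x).2, ?_⟩
            have hx := (e.symm x).2
            simp only [dif_pos hx]
            simp
        · exact ⟨fun _ => 0, fun h => absurd h hE⟩
      choose g hg using this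
      exact ⟨g, fun E hE => hg E hE⟩
    obtain ⟨D0, hD0⟩ := hne
    apply le_csInf
    · exact ⟨_, D0, hD0, rfl⟩
    · rintro m ⟨D, hDo, rfl⟩
      obtain ⟨A, hA2, hA⟩ := hD D hDo
      unfold fD
      rw [Nat.one_le_iff_ne_zero, ← Nat.pos_iff_ne_zero, card_pos]
      refine ⟨A, ?_⟩
      rw [mem_filter, mem_powersetCard]
      exact ⟨⟨subset_univ _, hA2⟩, fun P hP => hA P (mem_powersetCard.1 hP).2⟩

end Pool.Agent.Results.MP_721462_co.Disproof
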